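import Pool.Agent.Lib.MP_0e6856_lc.All.HardT
import Pool.Agent.Lib.MP_0e6856_lc.All.MemberT

/-!
For every `k ≥ 3` other than `4`, recognising contact graphs of translates of a regular `k`-gon is
NP-complete.
-/

namespace Pool.Agent.Variants.MP_0e6856_lc.AllContacts

open Pool.Agent.Lib.MP_0e6856_lc Pool.Agent.Shared.PolyTime

theorem result (k : ℕ) (hk : 3 ≤ k) (h4 : k ≠ 4) (a : ℂ) (ha : a ≠ 0) :
    N793a5b8e.IsCompleteFor N68a2faeb.NP
      (langOf (fun x : List ℕ × List (ℕ × ℕ) => ContactCoin k a (listGraph x))) := by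
  have hK : 3 ≤ KK k := by unfold KK; split <;> omega
  simp only [contactCoin_iff hk ha]
  exact (npHard_tModel hK).isCompleteFor (tModel_mem_NP (by omega))

end Pool.Agent.Variants.MP_0e6856_lc.AllContacts
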